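import Mathlib
import Pool.Agent.Work.MP_a6eddd_al.Family

set_option autoImplicit false

/-!
# The generalised common neighbour conjecture for Saxl graphs is false

For every prime `p ≥ 5` there is a primitive permutation group of affine type, of degree a power
of `p` and of base size two, whose Saxl graph has two distinct vertices without a common
neighbour.

Let `K ≅ A_4` be the group of even sign changes and cyclic shifts of the coordinates of
`V = F_p^3`.  It is irreducible, it has regular orbits, and each of its elements has the eigenvalue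
one, the vector `(1,1,1)` being in no subspace `(g - 1) V`.  Let `r` be the number of regular
`K`-orbits on `V` and `G = (V : K) wr Sym(r)` acting on `V^r`.  The neighbours of `0` are the
vectors which have exactly one coordinate in each regular orbit.  If `γ` was a common neighbour of
`0` and of `β = ((1,1,1), 0, ..., 0)` then `γ` and `γ - β` would both have one coordinate in each
regular orbit, and as they agree off the first coordinate, `γ_1` and `γ_1 - (1,1,1)` would be in the
same orbit, which is impossible.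
-/

namespace Pool.Agent.Results.MP_a6eddd_al.SaxlFamily

/-- `B` is a base for `G`: its pointwise stabiliser is trivial -/
def IsBase {Ω : Type} (G : Subgroup (Equiv.Perm Ω)) (B : Finset Ω) : Prop :=
  ∀ g ∈ G, (∀ x ∈ B, g x = x) → g = 1

/-- the base size of `G`, the smallest size of a base, is `b` -/
def BaseSize {Ω : Type} (G : Subgroup (Equiv.Perm Ω)) (b : ℕ) : Prop :=
  (∃ B : Finset Ω, B.card = b ∧ IsBase G B) ∧ ∀ B : Finset Ω, IsBase G B → b ≤ B.card

/-- adjacency in the generalised Saxl graph: the two points are distinct and contained in a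
common base of smallest size -/
def Adj {Ω : Type} (G : Subgroup (Equiv.Perm Ω)) (α β : Ω) : Prop :=
  α ≠ β ∧ ∃ B : Finset Ω, IsBase G B ∧ BaseSize G B.card ∧ α ∈ B ∧ β ∈ B

/-- For each prime `p ≥ 5` there is a primitive permutation group of affine type on the vectors of
some finite power of `F_p^3`, with base size two, such that two distinct vertices of its Saxl
graph have no common neighbour. -/
theorem result (p : ℕ) (hprime : p.Prime) (hp : 5 ≤ p) :
    ∃ (ι : Type) (_ : Finite ι) (G : Subgroup (Equiv.Perm (ι → Fin 3 → ZMod p))),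
      (∀ t : ι → Fin 3 → ZMod p, Equiv.addRight t ∈ G) ∧
      MulAction.IsPreprimitive G (ι → Fin 3 → ZMod p) ∧
      BaseSize G 2 ∧
      ∃ α β : ι → Fin 3 → ZMod p, α ≠ β ∧ ¬ ∃ γ : ι → Fin 3 → ZMod p,
        Adj G α γ ∧ Adj G β γ := by
  have : Fact p.Prime := ⟨hprime⟩
  obtain ⟨ι, hι, G, h0, h1, h2, h3, α, β, hne, hno⟩ :=
    Pool.Agent.Work.MP_a6eddd_al.family p hp
  refine ⟨ι, hι, G, h0, h1, ⟨h2, h3⟩, α, β, hne, ?_⟩
  rintro ⟨γ, ⟨ha, B, hB, ⟨⟨C, hC, hC'⟩, hmin⟩, hαB, hγB⟩, ⟨hb, B', hB', ⟨⟨D, hD, hD'⟩, hmin'⟩,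
    hβB, hγB'⟩⟩
  obtain ⟨E, hE, hE'⟩ := h2
  have c1 : B.card = 2 := le_antisymm (hE ▸ hmin E hE') (h3 B hB)
  have c2 : B'.card = 2 := le_antisymm (hE ▸ hmin' E hE') (h3 B' hB')
  exact hno γ ⟨⟨Ne.symm ha, B, c1, hαB, hγB, hB⟩, ⟨Ne.symm hb, B', c2, hβB, hγB', hB'⟩⟩

end Pool.Agent.Results.MP_a6eddd_al.SaxlFamily
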